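import Mathlib

set_option autoImplicit false

namespace Pool.Agent.Results.MP_e5975b_an.AllThreeDisconnected

open scoped RealInnerProductSpace

/-- `ℝⁿ` with its Euclidean norm. -/
abbrev E (n : ℕ) := EuclideanSpace ℝ (Fin n)

/-- The standard simplex in `ℝᵐ`. -/
def simplex (m : ℕ) : Set (Fin m → ℝ) := {ξ | (∀ l, 0 ≤ ξ l) ∧ ∑ l, ξ l = 1}

/-- The solution set of the scalar variational inequality of `F_ξ = ∑ ξ_l F_l` on `K`. -/
def scalarSol {n m : ℕ} (F : Fin m → E n → E n) (K : Set (E n)) (ξ : Fin m → ℝ) : Set (E n) :=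
  {x | x ∈ K ∧ ∀ y ∈ K, 0 ≤ ⟪∑ l, ξ l • F l x, y - x⟫}

/-- The Pareto solution set: no `y ∈ K` has all `⟪F_l(x), x - y⟫ ≥ 0` with one of them nonzero. -/
def paretoSol {n m : ℕ} (F : Fin m → E n → E n) (K : Set (E n)) : Set (E n) :=
  {x | x ∈ K ∧ ∀ y ∈ K, ¬ ((∀ l, 0 ≤ ⟪F l x, x - y⟫) ∧ ∃ l, ⟪F l x, x - y⟫ ≠ 0)}

/-- The weak Pareto solution set: no `y ∈ K` has all `⟪F_l(x), x - y⟫ > 0`. -/
def weakParetoSol {n m : ℕ} (F : Fin m → E n → E n) (K : Set (E n)) : Set (E n) :=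
  {x | x ∈ K ∧ ∀ y ∈ K, ¬ ∀ l, 0 < ⟪F l x, x - y⟫}

/-- The proper Pareto solution set: the union of the scalar solution sets over the relative
interior of the simplex. -/
def properParetoSol {n m : ℕ} (F : Fin m → E n → E n) (K : Set (E n)) : Set (E n) :=
  {x | ∃ ξ ∈ simplex m, (∀ l, 0 < ξ l) ∧ x ∈ scalarSol F K ξ}

/-- Every `F_l` is monotone on `K`. -/
def IsMonotone {n m : ℕ} (F : Fin m → E n → E n) (K : Set (E n)) : Prop :=
  ∀ l, ∀ x ∈ K, ∀ y ∈ K, 0 ≤ ⟪F l y - F l x, y - x⟫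

/-- Every `F_l` is differentiable on an open set containing `K`, with symmetric Jacobian matrix
at the points of `K`. -/
def IsSymmetric {n m : ℕ} (F : Fin m → E n → E n) (K : Set (E n)) : Prop :=
  ∀ l, ∃ U : Set (E n), IsOpen U ∧ K ⊆ U ∧ (∀ x ∈ U, DifferentiableAt ℝ (F l) x) ∧
    ∀ x ∈ K, ∀ i j : Fin n, (fderiv ℝ (F l) x (EuclideanSpace.single j 1)) i =
      (fderiv ℝ (F l) x (EuclideanSpace.single i 1)) j

/-- The half strip `[0, ∞) × [-2, 2]`. -/
def K : Set (E 2) := {p | 0 ≤ p 0 ∧ -2 ≤ p 1 ∧ p 1 ≤ 2}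

/-- The gradient of `10 (y + c)² + (y² - 1)² exp(-x)`. -/
noncomputable def G (c : ℝ) (p : E 2) : E 2 :=
  !₂[-((p 1 ^ 2 - 1) ^ 2 * Real.exp (-(p 0))),
    20 * (p 1 + c) + 4 * p 1 * (p 1 ^ 2 - 1) * Real.exp (-(p 0))]

/-- The two maps. -/
noncomputable def F (l : Fin 2) : E 2 → E 2 := G (if l = 0 then 2 else -2)

lemma inner_two (a b : E 2) : ⟪a, b⟫ = a 0 * b 0 + a 1 * b 1 := by
  simp [PiLp.inner_apply, Fin.sum_univ_two, mul_comm]

lemma G_zero (c : ℝ) (p : E 2) : G c p 0 = -((p 1 ^ 2 - 1) ^ 2 * Real.exp (-(p 0))) := by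
  simp [G]

lemma G_one (c : ℝ) (p : E 2) :
    G c p 1 = 20 * (p 1 + c) + 4 * p 1 * (p 1 ^ 2 - 1) * Real.exp (-(p 0)) := by
  simp [G]

lemma hasFDeriv (c : ℝ) (p : E 2) : HasFDerivAt (G c) ((PiLp.continuousLinearEquiv 2 ℝ
    (fun _ : Fin 2 => ℝ)).symm.toContinuousLinearMap.comp (ContinuousLinearMap.pi
    ![ (-(4 * p 1 * (p 1 ^ 2 - 1) * Real.exp (-(p 0)))) • (EuclideanSpace.proj 1 : E 2 →L[ℝ] ℝ) +
        ((p 1 ^ 2 - 1) ^ 2 * Real.exp (-(p 0))) • (EuclideanSpace.proj 0 : E 2 →L[ℝ] ℝ),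
      (20 + (12 * p 1 ^ 2 - 4) * Real.exp (-(p 0))) • (EuclideanSpace.proj 1 : E 2 →L[ℝ] ℝ) +
        (-(4 * p 1 * (p 1 ^ 2 - 1) * Real.exp (-(p 0)))) •
          (EuclideanSpace.proj 0 : E 2 →L[ℝ] ℝ)])) p := by
  have h0 : HasFDerivAt (fun q : E 2 => q 0) (EuclideanSpace.proj 0 : E 2 →L[ℝ] ℝ) p :=
    (EuclideanSpace.proj 0 : E 2 →L[ℝ] ℝ).hasFDerivAt
  have h1 : HasFDerivAt (fun q : E 2 => q 1) (EuclideanSpace.proj 1 : E 2 →L[ℝ] ℝ) p :=
    (EuclideanSpace.proj 1 : E 2 →L[ℝ] ℝ).hasFDerivAt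
  have he : HasFDerivAt (fun q : E 2 => Real.exp (-(q 0)))
      (Real.exp (-(p 0)) • (-(EuclideanSpace.proj 0 : E 2 →L[ℝ] ℝ))) p := h0.neg.exp
  have hpi : HasFDerivAt (fun q : E 2 => (![-((q 1 ^ 2 - 1) ^ 2 * Real.exp (-(q 0))),
      20 * (q 1 + c) + 4 * q 1 * (q 1 ^ 2 - 1) * Real.exp (-(q 0))] : Fin 2 → ℝ))
      (ContinuousLinearMap.pi
    ![ (-(4 * p 1 * (p 1 ^ 2 - 1) * Real.exp (-(p 0)))) • (EuclideanSpace.proj 1 : E 2 →L[ℝ] ℝ) +
        ((p 1 ^ 2 - 1) ^ 2 * Real.exp (-(p 0))) • (EuclideanSpace.proj 0 : E 2 →L[ℝ] ℝ),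
      (20 + (12 * p 1 ^ 2 - 4) * Real.exp (-(p 0))) • (EuclideanSpace.proj 1 : E 2 →L[ℝ] ℝ) +
        (-(4 * p 1 * (p 1 ^ 2 - 1) * Real.exp (-(p 0)))) •
          (EuclideanSpace.proj 0 : E 2 →L[ℝ] ℝ)]) p := by
    rw [hasFDerivAt_pi]
    intro i
    fin_cases i
    · have h := ((((h1.pow 2).sub_const 1).pow 2).mul he).neg
      refine HasFDerivAt.congr_fderiv
        (f := fun q : E 2 => -((q 1 ^ 2 - 1) ^ 2 * Real.exp (-(q 0)))) h ?_
      refine ContinuousLinearMap.ext fun v => ?_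
      simp
      ring
    · have h := ((h1.add_const c).const_mul 20).add
        (((h1.const_mul 4).mul ((h1.pow 2).sub_const 1)).mul he)
      refine HasFDerivAt.congr_fderiv (f := fun q : E 2 =>
        20 * (q 1 + c) + 4 * q 1 * (q 1 ^ 2 - 1) * Real.exp (-(q 0))) h ?_
      refine ContinuousLinearMap.ext fun v => ?_
      simp
      ring
  exact ((PiLp.continuousLinearEquiv 2 ℝ
    (fun _ : Fin 2 => ℝ)).symm.toContinuousLinearMap.hasFDerivAt).comp p hpi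

lemma symmetric_K : IsSymmetric F K := by
  intro l
  refine ⟨Set.univ, isOpen_univ, Set.subset_univ _,
    fun x _ => (hasFDeriv _ x).differentiableAt, ?_⟩
  intro x _ i j
  have h : fderiv ℝ (F l) x = _ := (hasFDeriv (if l = 0 then 2 else -2) x).fderiv
  rw [h]
  fin_cases i <;> fin_cases j <;> simp

lemma continuous_F (l : Fin 2) : Continuous (F l) :=
  continuous_iff_continuousAt.2 fun x => (hasFDeriv _ x).continuousAt

lemma monotone_K : IsMonotone F K := by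
  intro l x hx y hy
  obtain ⟨hx0, hx1, hx2⟩ := hx
  obtain ⟨hy0, hy1, hy2⟩ := hy
  set c : ℝ := if l = 0 then 2 else -2 with hc
  have hF : F l = G c := rfl
  rw [hF, inner_two]
  set v₁ := y 0 - x 0 with hv₁
  set v₂ := y 1 - x 1 with hv₂
  -- the function along the segment
  set φ : ℝ → ℝ := fun s =>
    -v₁ * (((x 1 + s * v₂) ^ 2 - 1) ^ 2 * Real.exp (-(x 0 + s * v₁))) +
    v₂ * (20 * (x 1 + s * v₂ + c) +
      4 * (x 1 + s * v₂) * ((x 1 + s * v₂) ^ 2 - 1) * Real.exp (-(x 0 + s * v₁))) with hφ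
  set φ' : ℝ → ℝ := fun s =>
    Real.exp (-(x 0 + s * v₁)) * (((x 1 + s * v₂) ^ 2 - 1) * v₁ - 4 * (x 1 + s * v₂) * v₂) ^ 2 +
      (20 - 4 * Real.exp (-(x 0 + s * v₁)) * ((x 1 + s * v₂) ^ 2 + 1)) * v₂ ^ 2 with hφ'
  have hder : ∀ s, HasDerivAt φ (φ' s) s := by
    intro s
    have hY : HasDerivAt (fun s : ℝ => x 1 + s * v₂) v₂ s := by
      simpa using ((hasDerivAt_id s).mul_const v₂).const_add (x 1)
    have hX : HasDerivAt (fun s : ℝ => x 0 + s * v₁) v₁ s := by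
      simpa using ((hasDerivAt_id s).mul_const v₁).const_add (x 0)
    have hE := hX.neg.exp
    have hu := ((hY.pow 2).sub_const 1)
    have h1 := ((hu.pow 2).mul hE).const_mul (-v₁)
    have h2 := (((hY.add_const c).const_mul 20).add (((hY.const_mul 4).mul hu).mul hE)).const_mul v₂
    have h3 := h1.add h2
    refine HasDerivAt.congr_deriv (f := φ) h3 ?_
    simp only [hφ']
    simp
    ring
  have hpos : ∀ s ∈ Set.Icc (0 : ℝ) 1, 0 ≤ φ' s := by
    intro s hs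
    have hXs : 0 ≤ x 0 + s * v₁ := by
      have : x 0 + s * v₁ = (1 - s) * x 0 + s * y 0 := by rw [hv₁]; ring
      rw [this]
      have := mul_nonneg (sub_nonneg.2 hs.2) hx0
      have := mul_nonneg hs.1 hy0
      linarith
    have hYs : -2 ≤ x 1 + s * v₂ ∧ x 1 + s * v₂ ≤ 2 := by
      have h : x 1 + s * v₂ = (1 - s) * x 1 + s * y 1 := by rw [hv₂]; ring
      rw [h]
      constructor <;> nlinarith [hs.1, hs.2]
    have hE1 : Real.exp (-(x 0 + s * v₁)) ≤ 1 := Real.exp_le_one_iff.2 (by linarith)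
    have hE0 := Real.exp_pos (-(x 0 + s * v₁))
    have hY2 : (x 1 + s * v₂) ^ 2 ≤ 4 := by nlinarith [hYs.1, hYs.2]
    have h1 : 0 ≤ 20 - 4 * Real.exp (-(x 0 + s * v₁)) * ((x 1 + s * v₂) ^ 2 + 1) := by
      nlinarith [sq_nonneg (x 1 + s * v₂)]
    simp only [hφ']
    have h2 := mul_nonneg h1 (sq_nonneg v₂)
    have h3 := mul_nonneg hE0.le
      (sq_nonneg (((x 1 + s * v₂) ^ 2 - 1) * v₁ - 4 * (x 1 + s * v₂) * v₂))
    linarith
  have hmono : MonotoneOn φ (Set.Icc 0 1) := by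
    apply monotoneOn_of_deriv_nonneg (convex_Icc 0 1)
    · exact fun s _ => (hder s).continuousAt.continuousWithinAt
    · exact fun s _ => (hder s).differentiableAt.differentiableWithinAt
    · intro s hs
      rw [(hder s).deriv]
      exact hpos s (interior_subset hs)
  have h01 := hmono (Set.left_mem_Icc.2 zero_le_one) (Set.right_mem_Icc.2 zero_le_one) zero_le_one
  have e0 : φ 0 = G c x 0 * v₁ + G c x 1 * v₂ := by
    simp only [hφ, G_zero, G_one]; simp; ring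
  have e1 : φ 1 = G c y 0 * v₁ + G c y 1 * v₂ := by
    simp only [hφ, G_zero, G_one]
    have a1 : x 1 + 1 * v₂ = y 1 := by rw [hv₂]; ring
    have a2 : x 0 + 1 * v₁ = y 0 := by rw [hv₁]; ring
    rw [a1, a2]; ring
  rw [e0, e1] at h01
  simp only [PiLp.sub_apply]
  have : (G c y 0 - G c x 0) * (y 0 - x 0) + (G c y 1 - G c x 1) * (y 1 - x 1) =
      (G c y 0 * v₁ + G c y 1 * v₂) - (G c x 0 * v₁ + G c x 1 * v₂) := by
    rw [hv₁, hv₂]; ring
  rw [this]
  linarith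

/-- Weak Pareto solutions lie on one of the lines `y = 1`, `y = -1`. -/
lemma weak_sub {p : E 2} (hp : p ∈ weakParetoSol F K) : p 1 = 1 ∨ p 1 = -1 := by
  obtain ⟨⟨h0, h1, h2⟩, hp⟩ := hp
  by_contra hcon
  push Not at hcon
  have hb : 0 < (p 1 ^ 2 - 1) ^ 2 := by
    have h3 : p 1 - 1 ≠ 0 := sub_ne_zero.2 hcon.1
    have h4 : p 1 + 1 ≠ 0 := fun h => hcon.2 (by linarith)
    have h5 : p 1 ^ 2 - 1 = (p 1 - 1) * (p 1 + 1) := by ring
    rw [h5]
    have h6 := mul_ne_zero h3 h4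
    positivity
  have hE := Real.exp_pos (-(p 0))
  refine hp !₂[p 0 + 1, p 1] ⟨?_, ?_, ?_⟩ ?_
  · simp; linarith
  · simpa using h1
  · simpa using h2
  · intro l
    have : F l p 0 = -((p 1 ^ 2 - 1) ^ 2 * Real.exp (-(p 0))) := G_zero _ _
    rw [inner_two]
    simp only [PiLp.sub_apply]
    simp [this]
    positivity

lemma proper_sub : properParetoSol F K ⊆ paretoSol F K := by
  rintro p ⟨ξ, -, hpos, hpK, hp⟩
  refine ⟨hpK, fun q hq hcon => ?_⟩
  obtain ⟨h1, l, h2⟩ := hcon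
  have h3 := hp q hq
  rw [sum_inner] at h3
  have h4 : ∑ i, ⟪ξ i • F i p, q - p⟫ = -∑ i, ξ i * ⟪F i p, p - q⟫ := by
    rw [← Finset.sum_neg_distrib]
    refine Finset.sum_congr rfl fun i _ => ?_
    rw [inner_smul_left, ← neg_sub p q, inner_neg_right]
    simp
  rw [h4] at h3
  have h5 : 0 < ∑ i, ξ i * ⟪F i p, p - q⟫ := by
    apply Finset.sum_pos' (fun i _ => mul_nonneg (hpos i).le (h1 i))
    exact ⟨l, Finset.mem_univ _, mul_pos (hpos l) (lt_of_le_of_ne (h1 l) (Ne.symm h2))⟩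
  linarith

lemma pareto_sub : paretoSol F K ⊆ weakParetoSol F K := by
  rintro p ⟨hpK, hp⟩
  refine ⟨hpK, fun q hq hcon => hp q hq ⟨fun l => (hcon l).le, 0, (hcon 0).ne'⟩⟩

/-- Two proper Pareto solutions. -/
lemma mem_proper (e : ℝ) (he : e = 1 ∨ e = -1) : (!₂[0, e] : E 2) ∈ properParetoSol F K := by
  refine ⟨![1 / 2 - e / 4, 1 / 2 + e / 4], ⟨?_, ?_⟩, ?_, ⟨?_, ?_, ?_⟩, ?_⟩
  · intro l; fin_cases l <;> rcases he with rfl | rfl <;> norm_num
  · simp; ring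
  · intro l; fin_cases l <;> rcases he with rfl | rfl <;> norm_num
  · simp
  · rcases he with rfl | rfl <;> norm_num
  · rcases he with rfl | rfl <;> norm_num
  · intro q _
    have he2 : e ^ 2 - 1 = 0 := by rcases he with rfl | rfl <;> norm_num
    have h0 : ∀ l, F l (!₂[0, e] : E 2) 0 = 0 := by
      intro l
      have : F l (!₂[0, e] : E 2) 0 = _ := G_zero _ _
      rw [this]; simp [he2]
    have h1 : ∀ l, F l (!₂[0, e] : E 2) 1 = 20 * (e + (if l = 0 then 2 else -2)) := by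
      intro l
      have : F l (!₂[0, e] : E 2) 1 = _ := G_one _ _
      rw [this]; simp [he2]
    rw [inner_two]
    simp [Fin.sum_univ_two, h0, h1]
    apply le_of_eq
    ring

/-- A set inside the two lines which contains a point of each is not connected. -/
lemma not_preconnected {S : Set (E 2)} (h : ∀ p ∈ S, p 1 = 1 ∨ p 1 = -1)
    (h1 : (!₂[0, 1] : E 2) ∈ S) (h2 : (!₂[0, -1] : E 2) ∈ S) : ¬ IsPreconnected S := by
  intro hS
  have hc : Continuous fun p : E 2 => p 1 := by fun_prop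
  have him := hS.image (fun p : E 2 => p 1) hc.continuousOn
  have m1 : (1 : ℝ) ∈ (fun p : E 2 => p 1) '' S := ⟨_, h1, by simp⟩
  have m2 : (-1 : ℝ) ∈ (fun p : E 2 => p 1) '' S := ⟨_, h2, by simp⟩
  obtain ⟨p, hp, hp0⟩ := him.ordConnected.out m2 m1
    (show (0 : ℝ) ∈ Set.Icc (-1) 1 by constructor <;> norm_num)
  simp only at hp0
  rcases h p hp with h3 | h3 <;> rw [hp0] at h3 <;> norm_num at h3

/-- A symmetric monotone vector variational inequality for which the weak Pareto, the Pareto and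
the proper Pareto solution sets are all nonempty and disconnected. -/
theorem result : ∃ (n m : ℕ) (K : Set (E n)) (F : Fin m → E n → E n),
    1 ≤ n ∧ 1 ≤ m ∧ K.Nonempty ∧ IsClosed K ∧ Convex ℝ K ∧ (∀ l, ContinuousOn (F l) K) ∧
    IsSymmetric F K ∧ IsMonotone F K ∧
    ((weakParetoSol F K).Nonempty ∧ ¬ IsConnected (weakParetoSol F K)) ∧
    ((paretoSol F K).Nonempty ∧ ¬ IsConnected (paretoSol F K)) ∧
    ((properParetoSol F K).Nonempty ∧ ¬ IsConnected (properParetoSol F K)) := by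
  have p1 := mem_proper 1 (Or.inl rfl)
  have p2 := mem_proper (-1) (Or.inr rfl)
  refine ⟨2, 2, K, F, by norm_num, by norm_num, ⟨!₂[0, 0], ?_⟩, ?_, ?_,
    fun l => (continuous_F l).continuousOn, symmetric_K, monotone_K, ⟨⟨_, pareto_sub
    (proper_sub p1)⟩, fun h => ?_⟩, ⟨⟨_, proper_sub p1⟩, fun h => ?_⟩, ⟨⟨_, p1⟩, fun h => ?_⟩⟩
  · simp [K]
  · have h0 : Continuous fun p : E 2 => p 0 := by fun_prop
    have h1 : Continuous fun p : E 2 => p 1 := by fun_prop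
    exact (isClosed_le continuous_const h0).inter
      ((isClosed_le continuous_const h1).inter (isClosed_le h1 continuous_const))
  · intro x hx y hy a b ha hb hab
    obtain ⟨hx0, hx1, hx2⟩ := hx
    obtain ⟨hy0, hy1, hy2⟩ := hy
    refine ⟨?_, ?_, ?_⟩ <;> simp only [PiLp.add_apply, PiLp.smul_apply, smul_eq_mul]
    · positivity
    · nlinarith
    · nlinarith
  · exact not_preconnected (fun p hp => weak_sub hp) (pareto_sub (proper_sub p1))
      (pareto_sub (proper_sub p2)) h.isPreconnected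
  · exact not_preconnected (fun p hp => weak_sub (pareto_sub hp)) (proper_sub p1)
      (proper_sub p2) h.isPreconnected
  · exact not_preconnected (fun p hp => weak_sub (pareto_sub (proper_sub hp))) p1 p2
      h.isPreconnected

end Pool.Agent.Results.MP_e5975b_an.AllThreeDisconnected
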